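import Mathlib
import Pool.Agent.H214Z.LRMain

set_option autoImplicit false

namespace Pool.Agent.Results.MP_fbd69e_co.AllStarsExceptTwo

/-- For every star size `r ≠ 2` and every number `k ≥ 1` of colours, the list Ramsey number of the
star with `r` edges equals its ordinary `k`-colour Ramsey number. -/
theorem result : ∀ r k : ℕ, 1 ≤ r → r ≠ 2 → 1 ≤ k →
    sInf {n : ℕ | ∃ L : Fin n → Fin n → Finset ℕ,
        (∀ v w : Fin n, v ≠ w → L v w = L w v ∧ (L v w).card = k) ∧
        ∀ c : Fin n → Fin n → ℕ,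
          (∀ v w : Fin n, v ≠ w → c v w = c w v ∧ c v w ∈ L v w) →
          ∃ v : Fin n, ∃ a : ℕ, ∃ S : Finset (Fin n),
            S.card = r ∧ v ∉ S ∧ ∀ w ∈ S, c v w = a}
    = sInf {n : ℕ | ∀ c : Fin n → Fin n → Fin k,
          (∀ v w : Fin n, v ≠ w → c v w = c w v) →
          ∃ v : Fin n, ∃ a : Fin k, ∃ S : Finset (Fin n),
            S.card = r ∧ v ∉ S ∧ ∀ w ∈ S, c v w = a} :=
  fun r k hr hr2 hk => Pool.Agent.H214Z.LR.main r k hr hr2 hk

end Pool.Agent.Results.MP_fbd69e_co.AllStarsExceptTwo
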